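import Mathlib

/-! An affine statement: `q - 2` points with pairwise distinct `x`, `y`, `y - x`, no three
collinear, do not exist over a field of odd order `q ≥ 9`. -/

namespace Pool.Agent.NHI

open Finset

variable {F : Type} [Field F] [Fintype F] [DecidableEq F]

theorem wilson : ∏ z ∈ (univ : Finset F).erase 0, z = -1 := by
  have h := FiniteField.prod_univ_units_id_eq_neg_one (K := F)
  have h2 : ((∏ x : Fˣ, x : Fˣ) : F) = -1 := by rw [h]; simp
  rw [← h2, Units.coe_prod]
  symm
  apply Finset.prod_bij (fun (x : Fˣ) _ => (x : F))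
  · intro x _; simp
  · intro x _ y _ h; exact Units.ext h
  · intro y hy
    exact ⟨Units.mk0 y (Finset.ne_of_mem_erase hy), Finset.mem_univ _, rfl⟩
  · intro x _; rfl

theorem wilson_shift (c : F) : ∏ z ∈ (univ : Finset F).erase c, (z - c) = -1 := by
  rw [← wilson (F := F)]
  apply Finset.prod_bij (fun z _ => z - c)
  · intro z hz
    simp only [Finset.mem_erase, Finset.mem_univ, and_true, ne_eq] at hz ⊢
    exact sub_ne_zero.2 hz
  · intro x _ y _ h
    exact sub_left_injective h
  · intro y hy
    refine ⟨y + c, ?_, by ring⟩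
    simp only [Finset.mem_erase, Finset.mem_univ, and_true, ne_eq] at hy ⊢
    intro h
    apply hy
    linear_combination h
  · intro z _; rfl

/-- the product of differences of an injective function that misses two values -/
theorem prod_miss {T : Finset (F × F)} (φ : F × F → F) (hφ : ∀ p ∈ T, ∀ p' ∈ T, φ p = φ p' → p = p')
    {u1 u2 : F} (hne : u1 ≠ u2) (hc : (univ : Finset F) \ T.image φ = {u1, u2})
    {D : F × F} (hD : D ∈ T) :
    (∏ p ∈ T.erase D, (φ p - φ D)) * ((u1 - φ D) * (u2 - φ D)) = -1 := by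
  rw [← wilson_shift (φ D)]
  have h1 : (univ : Finset F).erase (φ D) = (T.erase D).image φ ∪ {u1, u2} := by
    ext z
    simp only [Finset.mem_erase, Finset.mem_univ, and_true, Finset.mem_union, Finset.mem_image,
      ne_eq]
    constructor
    · intro hz
      by_cases hm : z ∈ T.image φ
      · left
        obtain ⟨p, hp, rfl⟩ := Finset.mem_image.1 hm
        exact ⟨p, ⟨fun h => hz (by rw [h]), hp⟩, rfl⟩
      · right
        rw [← hc]
        exact Finset.mem_sdiff.2 ⟨Finset.mem_univ _, hm⟩
    · rintro (⟨p, ⟨hp1, hp2⟩, rfl⟩ | hz)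
      · intro h
        exact hp1 (hφ p hp2 D hD h)
      · intro h
        rw [← hc] at hz
        apply (Finset.mem_sdiff.1 hz).2
        rw [h]
        exact Finset.mem_image_of_mem φ hD
  have h2 : Disjoint ((T.erase D).image φ) {u1, u2} := by
    rw [Finset.disjoint_right]
    intro z hz hz'
    rw [← hc] at hz
    apply (Finset.mem_sdiff.1 hz).2
    exact Finset.image_subset_image (Finset.erase_subset _ _) hz'
  rw [h1, Finset.prod_union h2, Finset.prod_pair hne, Finset.prod_image]
  intro p hp p' hp' h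
  exact hφ p (Finset.mem_of_mem_erase hp) p' (Finset.mem_of_mem_erase hp') h

theorem exists_miss {T : Finset (F × F)} (hcard : T.card + 2 = Fintype.card F) (φ : F × F → F)
    (hφ : ∀ p ∈ T, ∀ p' ∈ T, φ p = φ p' → p = p') :
    ∃ u1 u2 : F, u1 ≠ u2 ∧ (univ : Finset F) \ T.image φ = {u1, u2} := by
  have h1 : (T.image φ).card = T.card := Finset.card_image_of_injOn (fun p hp p' hp' h => hφ p hp p' hp' h)
  have h2 : ((univ : Finset F) \ T.image φ).card = 2 := by
    rw [Finset.card_sdiff_of_subset (Finset.subset_univ _), Finset.card_univ, h1]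
    omega
  exact Finset.card_eq_two.1 h2

/-- the hypotheses on the affine part -/
structure Cfg (T : Finset (F × F)) : Prop where
  hcard : T.card + 2 = Fintype.card F
  hx : ∀ p ∈ T, ∀ p' ∈ T, p.1 = p'.1 → p = p'
  hy : ∀ p ∈ T, ∀ p' ∈ T, p.2 = p'.2 → p = p'
  hs : ∀ p ∈ T, ∀ p' ∈ T, p.2 - p.1 = p'.2 - p'.1 → p = p'
  hcol : ∀ p ∈ T, ∀ p' ∈ T, ∀ p'' ∈ T, p ≠ p' → p ≠ p'' → p' ≠ p'' →
    (p'.1 - p.1) * (p''.2 - p.2) ≠ (p''.1 - p.1) * (p'.2 - p.2)

/-- slope from `D` -/
def slope (D p : F × F) : F := (p.2 - D.2) / (p.1 - D.1)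

theorem Cfg.slopes {T : Finset (F × F)} (h : Cfg T) {D : F × F} (hD : D ∈ T) :
    ∃ m : F, (∀ z : F, z ≠ 0 → z ≠ 1 → z ≠ m → ∃ p ∈ T.erase D, slope D p = z) ∧
      m * ∏ p ∈ T.erase D, (p.2 - D.2) = - ∏ p ∈ T.erase D, (p.1 - D.1) ∧
      (m - 1) * ∏ p ∈ T.erase D, ((p.2 - p.1) - (D.2 - D.1)) = ∏ p ∈ T.erase D, (p.1 - D.1) := by
  have hx0 : ∀ p ∈ T.erase D, p.1 - D.1 ≠ 0 := by
    intro p hp h0
    exact Finset.ne_of_mem_erase hp (h.hx p (Finset.mem_of_mem_erase hp) D hD (sub_eq_zero.1 h0))
  have hy0 : ∀ p ∈ T.erase D, p.2 - D.2 ≠ 0 := by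
    intro p hp h0
    exact Finset.ne_of_mem_erase hp (h.hy p (Finset.mem_of_mem_erase hp) D hD (sub_eq_zero.1 h0))
  have hs0 : ∀ p ∈ T.erase D, (p.2 - p.1) - (D.2 - D.1) ≠ 0 := by
    intro p hp h0
    exact Finset.ne_of_mem_erase hp (h.hs p (Finset.mem_of_mem_erase hp) D hD (sub_eq_zero.1 h0))
  have hinj : Set.InjOn (slope D) (T.erase D : Finset (F × F)) := by
    intro p hp p' hp' he
    by_contra hne
    have hp1 := Finset.mem_coe.1 hp
    have hp1' := Finset.mem_coe.1 hp'
    apply h.hcol D hD p (Finset.mem_of_mem_erase hp1) p' (Finset.mem_of_mem_erase hp1')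
      (Finset.ne_of_mem_erase hp1).symm (Finset.ne_of_mem_erase hp1').symm hne
    unfold slope at he
    rw [div_eq_div_iff (hx0 p hp1) (hx0 p' hp1')] at he
    linear_combination -he
  set R := (T.erase D).image (slope D) with hR
  have hRc : R.card = T.card - 1 := by
    rw [hR, Finset.card_image_of_injOn hinj, Finset.card_erase_of_mem hD]
  have hTpos : 0 < T.card := Finset.card_pos.2 ⟨D, hD⟩
  have h0R : (0 : F) ∉ R := by
    intro h0
    obtain ⟨p, hp, he⟩ := Finset.mem_image.1 h0
    unfold slope at he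
    rcases div_eq_zero_iff.1 he with h1 | h1
    · exact hy0 p hp h1
    · exact hx0 p hp h1
  have h1R : (1 : F) ∉ R := by
    intro h0
    obtain ⟨p, hp, he⟩ := Finset.mem_image.1 h0
    unfold slope at he
    rw [div_eq_one_iff_eq (hx0 p hp)] at he
    apply hs0 p hp
    linear_combination he
  have hcR : ((univ : Finset F) \ insert 0 (insert 1 R)).card = 1 := by
    rw [Finset.card_sdiff_of_subset (Finset.subset_univ _), Finset.card_univ,
      Finset.card_insert_of_notMem, Finset.card_insert_of_notMem h1R, hRc]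
    · have := h.hcard
      omega
    · rw [Finset.mem_insert, not_or]
      exact ⟨zero_ne_one, h0R⟩
  obtain ⟨m, hm⟩ := Finset.card_eq_one.1 hcR
  have hmem : m ∉ insert (0 : F) (insert 1 R) := by
    have : m ∈ (univ : Finset F) \ insert 0 (insert 1 R) := by rw [hm]; simp
    exact (Finset.mem_sdiff.1 this).2
  simp only [Finset.mem_insert, not_or] at hmem
  have hall : ∀ z : F, z ≠ 0 → z ≠ 1 → z ≠ m → z ∈ R := by
    intro z h0 h1 h2
    by_contra hz
    have : z ∈ (univ : Finset F) \ insert 0 (insert 1 R) := by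
      simp only [Finset.mem_sdiff, Finset.mem_univ, Finset.mem_insert, true_and, not_or]
      exact ⟨h0, h1, hz⟩
    rw [hm] at this
    exact h2 (Finset.mem_singleton.1 this)
  have hXne : ∏ p ∈ T.erase D, (p.1 - D.1) ≠ 0 := Finset.prod_ne_zero_iff.2 hx0
  refine ⟨m, ?_, ?_, ?_⟩
  · intro z h0 h1 h2
    exact Finset.mem_image.1 (hall z h0 h1 h2)
  · have e1 : (univ : Finset F).erase 0 = insert 1 (insert m R) := by
      ext z
      simp only [Finset.mem_erase, Finset.mem_univ, and_true, Finset.mem_insert, ne_eq]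
      constructor
      · intro hz
        by_cases h1 : z = 1
        · left; exact h1
        · by_cases h2 : z = m
          · right; left; exact h2
          · right; right; exact hall z hz h1 h2
      · rintro (rfl | rfl | hz)
        · exact one_ne_zero
        · exact hmem.1
        · rintro rfl; exact h0R hz
    have e2 := wilson (F := F)
    rw [e1, Finset.prod_insert, Finset.prod_insert hmem.2.2, one_mul, hR,
      Finset.prod_image hinj] at e2
    · have e3 : (∏ p ∈ T.erase D, slope D p) * ∏ p ∈ T.erase D, (p.1 - D.1)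
          = ∏ p ∈ T.erase D, (p.2 - D.2) := by
        rw [← Finset.prod_mul_distrib]
        apply Finset.prod_congr rfl
        intro p hp
        unfold slope
        exact div_mul_cancel₀ _ (hx0 p hp)
      rw [← e3]
      linear_combination (∏ p ∈ T.erase D, (p.1 - D.1)) * e2
    · rw [Finset.mem_insert, not_or]
      exact ⟨fun h => hmem.2.1 h.symm, h1R⟩
  · have e1 : (univ : Finset F).erase 1 = insert 0 (insert m R) := by
      ext z
      simp only [Finset.mem_erase, Finset.mem_univ, and_true, Finset.mem_insert, ne_eq]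
      constructor
      · intro hz
        by_cases h1 : z = 0
        · left; exact h1
        · by_cases h2 : z = m
          · right; left; exact h2
          · right; right; exact hall z h1 hz h2
      · rintro (rfl | rfl | hz)
        · exact zero_ne_one
        · exact hmem.2.1
        · rintro rfl; exact h1R hz
    have e2 := wilson_shift (F := F) 1
    rw [e1, Finset.prod_insert, Finset.prod_insert hmem.2.2, hR,
      Finset.prod_image hinj] at e2
    · have e3 : (∏ p ∈ T.erase D, (slope D p - 1)) * ∏ p ∈ T.erase D, (p.1 - D.1)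
          = ∏ p ∈ T.erase D, ((p.2 - p.1) - (D.2 - D.1)) := by
        rw [← Finset.prod_mul_distrib]
        apply Finset.prod_congr rfl
        intro p hp
        unfold slope
        rw [sub_mul, div_mul_cancel₀ _ (hx0 p hp)]
        ring
      rw [← e3]
      linear_combination (-(∏ p ∈ T.erase D, (p.1 - D.1))) * e2
    · rw [Finset.mem_insert, not_or]
      exact ⟨fun h => hmem.1 h.symm, h0R⟩

end Pool.Agent.NHI
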