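import Mathlib
import Pool.Agent.NHI.Aff

/-! The conic argument. -/

namespace Pool.Agent.NHI

open Finset

variable {F : Type} [Field F] [Fintype F] [DecidableEq F]

theorem Cfg.line_card {T : Finset (F × F)} (h : Cfg T) (A B C : F) (hAB : A ≠ 0 ∨ B ≠ 0) :
    (T.filter fun p => A * p.1 + B * p.2 + C = 0).card ≤ 2 := by
  by_contra hcon
  push Not at hcon
  obtain ⟨p, hp, p', hp', p'', hp'', h1, h2, h3⟩ := Finset.two_lt_card.1 hcon
  simp only [Finset.mem_filter] at hp hp' hp''
  apply h.hcol p hp.1 p' hp'.1 p'' hp''.1 h1 h2 h3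
  have e := hp.2
  have e' := hp'.2
  have e'' := hp''.2
  rcases hAB with hA | hB
  · apply mul_left_cancel₀ hA
    linear_combination (p''.2 - p.2) * (e' - e) - (p'.2 - p.2) * (e'' - e)
  · apply mul_left_cancel₀ hB
    linear_combination (p'.1 - p.1) * (e'' - e) - (p''.1 - p.1) * (e' - e)

/-- the quadratic form -/
def GG (x1 x2 y1 y2 s1 s2 x y : F) : F :=
  (x1 - x) * (x2 - x) + (y1 - y) * (y2 - y) + (s1 - (y - x)) * (s2 - (y - x))

theorem GG_line (x1 x2 y1 y2 s1 s2 x0 y0 m t : F) :
    GG x1 x2 y1 y2 s1 s2 (x0 + t) (y0 + m * t) = GG x1 x2 y1 y2 s1 s2 x0 y0 +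
      (-(x1 + x2) + 2 * x0 + m * (-(y1 + y2) + 2 * y0) +
        (m - 1) * (-(s1 + s2) + 2 * (y0 - x0))) * t + 2 * (1 - m + m ^ 2) * t ^ 2 := by
  unfold GG; ring

theorem GG_vert (x1 x2 y1 y2 s1 s2 x0 y0 t : F) :
    GG x1 x2 y1 y2 s1 s2 x0 (y0 + t) = GG x1 x2 y1 y2 s1 s2 x0 y0 +
      (-(y1 + y2) + 2 * y0 + (-(s1 + s2) + 2 * (y0 - x0))) * t + 2 * t ^ 2 := by
  unfold GG; ring

theorem GG_off (x1 x2 y1 y2 s1 s2 x0 y0 m t z : F) :
    GG x1 x2 y1 y2 s1 s2 (x0 + t) (y0 + m * t + z) =
      GG x1 x2 y1 y2 s1 s2 (x0 + t) (y0 + m * t) +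
      z * (2 * z + (-(y1 + y2) + 2 * y0 - (s1 + s2) + 2 * (y0 - x0)) + (4 * m - 2) * t) := by
  unfold GG; ring

theorem Cfg.no_line {T : Finset (F × F)} (h : Cfg T) (h20 : (2 : F) ≠ 0) (hT : 5 ≤ T.card)
    {x1 x2 y1 y2 s1 s2 x0 y0 m : F}
    (hG : ∀ p ∈ T, GG x1 x2 y1 y2 s1 s2 p.1 p.2 = 0)
    (h0 : GG x1 x2 y1 y2 s1 s2 x0 y0 = 0)
    (hβ : -(x1 + x2) + 2 * x0 + m * (-(y1 + y2) + 2 * y0) +
        (m - 1) * (-(s1 + s2) + 2 * (y0 - x0)) = 0)
    (hα : 1 - m + m ^ 2 = 0) : False := by
  have c1 := h.line_card (-m) 1 (m * x0 - y0) (Or.inr one_ne_zero)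
  have c2 := h.line_card (-2 * m + (4 * m - 2)) 2
    (2 * (-y0 + m * x0) + (-(y1 + y2) + 2 * y0 - (s1 + s2) + 2 * (y0 - x0)) - (4 * m - 2) * x0)
    (Or.inr h20)
  have hsub : T ⊆ (T.filter fun p => (-m) * p.1 + 1 * p.2 + (m * x0 - y0) = 0) ∪
      (T.filter fun p => (-2 * m + (4 * m - 2)) * p.1 + 2 * p.2 +
    (2 * (-y0 + m * x0) + (-(y1 + y2) + 2 * y0 - (s1 + s2) + 2 * (y0 - x0))
      - (4 * m - 2) * x0) = 0) := by
    intro p hp
    have e1 := hG p hp
    have e2 : GG x1 x2 y1 y2 s1 s2 p.1 p.2 =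
        GG x1 x2 y1 y2 s1 s2 (x0 + (p.1 - x0)) (y0 + m * (p.1 - x0) + (p.2 - y0 - m * (p.1 - x0))) := by
      congr 1 <;> ring
    rw [e2, GG_off, GG_line, h0, hβ, hα] at e1
    have e3 : (p.2 - y0 - m * (p.1 - x0)) * (2 * (p.2 - y0 - m * (p.1 - x0)) +
        (-(y1 + y2) + 2 * y0 - (s1 + s2) + 2 * (y0 - x0)) + (4 * m - 2) * (p.1 - x0)) = 0 := by
      linear_combination e1
    rw [Finset.mem_union, Finset.mem_filter, Finset.mem_filter]
    rcases mul_eq_zero.1 e3 with e4 | e4
    · left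
      refine ⟨hp, ?_⟩
      linear_combination e4
    · right
      refine ⟨hp, ?_⟩
      linear_combination e4
  have c3 := (Finset.card_le_card hsub).trans (Finset.card_union_le _ _)
  omega

theorem Cfg.false {T : Finset (F × F)} (h : Cfg T) (h20 : (2 : F) ≠ 0)
    (hq : 9 ≤ Fintype.card F) : False := by
  classical
  have hTc := h.hcard
  obtain ⟨x1, x2, hx12, hxm⟩ := exists_miss h.hcard (fun p => p.1) h.hx
  obtain ⟨y1, y2, hy12, hym⟩ := exists_miss h.hcard (fun p => p.2) h.hy
  obtain ⟨s1, s2, hs12, hsm⟩ := exists_miss h.hcard (fun p => p.2 - p.1) h.hs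
  have hG : ∀ p ∈ T, GG x1 x2 y1 y2 s1 s2 p.1 p.2 = 0 := by
    intro D hD
    have pX := prod_miss (fun p : F × F => p.1) h.hx hx12 hxm hD
    have pY := prod_miss (fun p : F × F => p.2) h.hy hy12 hym hD
    have pS := prod_miss (fun p : F × F => p.2 - p.1) h.hs hs12 hsm hD
    obtain ⟨m, _, hm1, hm2⟩ := h.slopes hD
    unfold GG
    generalize (∏ p ∈ T.erase D, (p.1 - D.1)) = a at *
    generalize (∏ p ∈ T.erase D, (p.2 - D.2)) = b at *
    generalize (∏ p ∈ T.erase D, ((p.2 - p.1) - (D.2 - D.1))) = c at *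
    have e1 : (y1 - D.2) * (y2 - D.2) = - m * ((x1 - D.1) * (x2 - D.1)) := by
      linear_combination (-(x1 - D.1) * (x2 - D.1) * ((y1 - D.2) * (y2 - D.2))) * hm1
        + (m * ((x1 - D.1) * (x2 - D.1))) * pY + ((y1 - D.2) * (y2 - D.2)) * pX
    have e2 : (s1 - (D.2 - D.1)) * (s2 - (D.2 - D.1)) = (m - 1) * ((x1 - D.1) * (x2 - D.1)) := by
      linear_combination ((x1 - D.1) * (x2 - D.1) * ((s1 - (D.2 - D.1)) * (s2 - (D.2 - D.1)))) * hm2
        - ((m - 1) * ((x1 - D.1) * (x2 - D.1))) * pS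
        + ((s1 - (D.2 - D.1)) * (s2 - (D.2 - D.1))) * pX
    rw [e1, e2]
    ring
  have hT5 : 5 ≤ T.card := by omega
  -- the involution
  set K : F := (x1 + x2 - s1 - s2) / 2 with hK
  have hK2 : 2 * K = x1 + x2 - s1 - s2 := by rw [hK]; field_simp
  have hι : ∀ x y : F, GG x1 x2 y1 y2 s1 s2 (K + y - x) y = GG x1 x2 y1 y2 s1 s2 x y := by
    intro x y
    unfold GG
    linear_combination (K + y - 2 * x) * hK2
  have hfix := h.line_card 2 (-1) (-K) (Or.inl h20)
  have hsplit := Finset.card_filter_add_card_filter_not (s := T)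
    (fun p : F × F => 2 * p.1 + (-1) * p.2 + (-K) = 0)
  obtain ⟨D0, hD0⟩ : T.Nonempty := Finset.card_pos.1 (by omega)
  obtain ⟨m, hm, _, _⟩ := h.slopes hD0
  have h00 := hG D0 hD0
  -- images
  have himg : ∀ p ∈ T.filter (fun p : F × F => ¬ (2 * p.1 + (-1) * p.2 + (-K) = 0)),
      GG x1 x2 y1 y2 s1 s2 (K + p.2 - p.1) p.2 = 0 ∧ ((K + p.2 - p.1, p.2) : F × F) ∉ T := by
    intro p hp
    rw [Finset.mem_filter] at hp
    refine ⟨by rw [hι]; exact hG p hp.1, ?_⟩
    intro hmem
    have e := h.hy _ hmem p hp.1 rfl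
    apply hp.2
    have e1 := congrArg Prod.fst e
    simp only at e1
    linear_combination -e1
  -- two further points on a line through `D0` with the same slope
  have two : ∀ z t t' : F, t ≠ 0 → t' ≠ 0 → t ≠ t' →
      GG x1 x2 y1 y2 s1 s2 (D0.1 + t) (D0.2 + z * t) = 0 →
      GG x1 x2 y1 y2 s1 s2 (D0.1 + t') (D0.2 + z * t') = 0 → False := by
    intro z t t' ht ht' hne e e'
    rw [GG_line, h00] at e e'
    generalize hβ : (-(x1 + x2) + 2 * D0.1 + z * (-(y1 + y2) + 2 * D0.2) +
        (z - 1) * (-(s1 + s2) + 2 * (D0.2 - D0.1))) = β at e e'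
    have e1 : β + 2 * (1 - z + z ^ 2) * t = 0 := by
      apply mul_left_cancel₀ ht
      linear_combination e
    have e2 : β + 2 * (1 - z + z ^ 2) * t' = 0 := by
      apply mul_left_cancel₀ ht'
      linear_combination e'
    have hα : 1 - z + z ^ 2 = 0 := by
      have e3 : (2 * (t - t')) * (1 - z + z ^ 2) = 0 := by linear_combination e1 - e2
      rcases mul_eq_zero.1 e3 with e4 | e4
      · exact absurd e4 (mul_ne_zero h20 (sub_ne_zero.2 hne))
      · exact e4
    have hβ0 : β = 0 := by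
      rw [hα] at e1
      linear_combination e1
    exact h.no_line h20 hT5 hG h00 (hβ.trans hβ0) hα
  let dir : F × F → Option F := fun p =>
    if K + p.2 - p.1 = D0.1 then none else some ((p.2 - D0.2) / (K + p.2 - p.1 - D0.1))
  have hle : (T.filter (fun p : F × F => ¬ (2 * p.1 + (-1) * p.2 + (-K) = 0))).card ≤
      ({none, some 0, some 1, some m} : Finset (Option F)).card := by
    apply Finset.card_le_card_of_injOn dir
    · intro p hp
      have hp' := Finset.mem_coe.1 hp
      obtain ⟨g0, g1⟩ := himg p hp'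
      simp only [dir, Finset.coe_insert, Finset.coe_singleton, Set.mem_insert_iff,
        Set.mem_singleton_iff]
      split_ifs with hc
      · left; rfl
      · right
        have ht : K + p.2 - p.1 - D0.1 ≠ 0 := sub_ne_zero.2 hc
        by_contra hcon
        push Not at hcon
        obtain ⟨z0, z1, zm⟩ := hcon
        obtain ⟨p', hp1, hp2⟩ := hm ((p.2 - D0.2) / (K + p.2 - p.1 - D0.1))
          (fun h => z0 (by rw [h])) (fun h => z1 (by rw [h])) (fun h => zm (by rw [h]))
        set z := (p.2 - D0.2) / (K + p.2 - p.1 - D0.1) with hz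
        have hz1 : z * (K + p.2 - p.1 - D0.1) = p.2 - D0.2 := by
          rw [hz]; exact div_mul_cancel₀ _ ht
        have hp1T := Finset.mem_of_mem_erase hp1
        have ht' : p'.1 - D0.1 ≠ 0 := by
          intro h0
          exact Finset.ne_of_mem_erase hp1 (h.hx p' hp1T D0 hD0 (sub_eq_zero.1 h0))
        have hz2 : z * (p'.1 - D0.1) = p'.2 - D0.2 := by
          rw [← hp2]; unfold slope; exact div_mul_cancel₀ _ ht'
        apply two z (K + p.2 - p.1 - D0.1) (p'.1 - D0.1) ht ht'
        · intro he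
          apply g1
          have e1 : K + p.2 - p.1 = p'.1 := by linear_combination he
          have e2 : p.2 = p'.2 := by
            rw [he] at hz1
            linear_combination hz2 - hz1
          have : ((K + p.2 - p.1, p.2) : F × F) = p' := Prod.ext e1 e2
          rw [this]
          exact hp1T
        · rw [hz1]
          have e1 : D0.1 + (K + p.2 - p.1 - D0.1) = K + p.2 - p.1 := by ring
          have e2 : D0.2 + (p.2 - D0.2) = p.2 := by ring
          rw [e1, e2]
          exact g0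
        · rw [hz2]
          have e1 : D0.1 + (p'.1 - D0.1) = p'.1 := by ring
          have e2 : D0.2 + (p'.2 - D0.2) = p'.2 := by ring
          rw [e1, e2]
          exact hG p' hp1T
    · intro p hp p' hp' he
      have hpm := Finset.mem_coe.1 hp
      have hpm' := Finset.mem_coe.1 hp'
      obtain ⟨g0, g1⟩ := himg p hpm
      obtain ⟨g0', g1'⟩ := himg p' hpm'
      have hpT := (Finset.mem_filter.1 hpm).1
      have hpT' := (Finset.mem_filter.1 hpm').1
      by_contra hne
      have hy' : p.2 ≠ p'.2 := fun hh => hne (h.hy p hpT p' hpT' hh)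
      simp only [dir] at he
      by_cases c1 : K + p.2 - p.1 = D0.1
      · by_cases c2 : K + p'.2 - p'.1 = D0.1
        · -- vertical
          rw [c1] at g0 g1
          rw [c2] at g0' g1'
          have t1 : p.2 - D0.2 ≠ 0 := by
            intro h0
            apply g1
            have : ((D0.1, p.2) : F × F) = D0 := Prod.ext rfl (sub_eq_zero.1 h0)
            rw [this]; exact hD0
          have t2 : p'.2 - D0.2 ≠ 0 := by
            intro h0
            apply g1'
            have : ((D0.1, p'.2) : F × F) = D0 := Prod.ext rfl (sub_eq_zero.1 h0)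
            rw [this]; exact hD0
          have v1 := GG_vert x1 x2 y1 y2 s1 s2 D0.1 D0.2 (p.2 - D0.2)
          have v2 := GG_vert x1 x2 y1 y2 s1 s2 D0.1 D0.2 (p'.2 - D0.2)
          have e1 : D0.2 + (p.2 - D0.2) = p.2 := by ring
          have e2 : D0.2 + (p'.2 - D0.2) = p'.2 := by ring
          rw [e1, g0, h00] at v1
          rw [e2, g0', h00] at v2
          generalize (-(y1 + y2) + 2 * D0.2 + (-(s1 + s2) + 2 * (D0.2 - D0.1))) = γ at v1 v2
          have w1 : γ + 2 * (p.2 - D0.2) = 0 := by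
            apply mul_left_cancel₀ t1
            linear_combination -v1
          have w2 : γ + 2 * (p'.2 - D0.2) = 0 := by
            apply mul_left_cancel₀ t2
            linear_combination -v2
          have w3 : 2 * (p.2 - p'.2) = 0 := by linear_combination w1 - w2
          exact mul_ne_zero h20 (sub_ne_zero.2 hy') w3
        · rw [if_pos c1, if_neg c2] at he
          exact absurd he (by simp)
      · by_cases c2 : K + p'.2 - p'.1 = D0.1
        · rw [if_neg c1, if_pos c2] at he
          exact absurd he (by simp)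
        · rw [if_neg c1, if_neg c2] at he
          have he' := Option.some.inj he
          have t1 : K + p.2 - p.1 - D0.1 ≠ 0 := sub_ne_zero.2 c1
          have t2 : K + p'.2 - p'.1 - D0.1 ≠ 0 := sub_ne_zero.2 c2
          set z := (p.2 - D0.2) / (K + p.2 - p.1 - D0.1) with hz
          have hz1 : z * (K + p.2 - p.1 - D0.1) = p.2 - D0.2 := by
            rw [hz]; exact div_mul_cancel₀ _ t1
          have hz2 : z * (K + p'.2 - p'.1 - D0.1) = p'.2 - D0.2 := by
            rw [he']; exact div_mul_cancel₀ _ t2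
          apply two z _ _ t1 t2
          · intro hh
            apply hy'
            rw [hh] at hz1
            linear_combination hz2 - hz1
          · rw [hz1]
            have e1 : D0.1 + (K + p.2 - p.1 - D0.1) = K + p.2 - p.1 := by ring
            have e2 : D0.2 + (p.2 - D0.2) = p.2 := by ring
            rw [e1, e2]
            exact g0
          · rw [hz2]
            have e1 : D0.1 + (K + p'.2 - p'.1 - D0.1) = K + p'.2 - p'.1 := by ring
            have e2 : D0.2 + (p'.2 - D0.2) = p'.2 := by ring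
            rw [e1, e2]
            exact g0'
  have h4 : ({none, some 0, some 1, some m} : Finset (Option F)).card ≤ 4 := Finset.card_le_four
  omega

end Pool.Agent.NHI
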