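import Mathlib
import Pool.Agent.NHI.Aff2

/-! The case `q = 7`. -/

namespace Pool.Agent.NHI

open Finset

variable {F : Type} [Field F] [Fintype F] [DecidableEq F]

theorem Cfg.false7 {T : Finset (F × F)} (h : Cfg T) (h20 : (2 : F) ≠ 0)
    (hq : Fintype.card F = 7) : False := by
  classical
  have hTc := h.hcard
  obtain ⟨x1, x2, hx12, hxm⟩ := exists_miss h.hcard (fun p => p.1) h.hx
  obtain ⟨y1, y2, hy12, hym⟩ := exists_miss h.hcard (fun p => p.2) h.hy
  obtain ⟨s1, s2, hs12, hsm⟩ := exists_miss h.hcard (fun p => p.2 - p.1) h.hs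
  have hG : ∀ p ∈ T, GG x1 x2 y1 y2 s1 s2 p.1 p.2 = 0 := by
    intro D hD
    have pX := prod_miss (fun p : F × F => p.1) h.hx hx12 hxm hD
    have pY := prod_miss (fun p : F × F => p.2) h.hy hy12 hym hD
    have pS := prod_miss (fun p : F × F => p.2 - p.1) h.hs hs12 hsm hD
    obtain ⟨m, _, hm1, hm2⟩ := h.slopes hD
    unfold GG
    generalize (∏ p ∈ T.erase D, (p.1 - D.1)) = a at *
    generalize (∏ p ∈ T.erase D, (p.2 - D.2)) = b at *
    generalize (∏ p ∈ T.erase D, ((p.2 - p.1) - (D.2 - D.1))) = c at *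
    have e1 : (y1 - D.2) * (y2 - D.2) = - m * ((x1 - D.1) * (x2 - D.1)) := by
      linear_combination (-(x1 - D.1) * (x2 - D.1) * ((y1 - D.2) * (y2 - D.2))) * hm1
        + (m * ((x1 - D.1) * (x2 - D.1))) * pY + ((y1 - D.2) * (y2 - D.2)) * pX
    have e2 : (s1 - (D.2 - D.1)) * (s2 - (D.2 - D.1)) = (m - 1) * ((x1 - D.1) * (x2 - D.1)) := by
      linear_combination ((x1 - D.1) * (x2 - D.1) * ((s1 - (D.2 - D.1)) * (s2 - (D.2 - D.1)))) * hm2
        - ((m - 1) * ((x1 - D.1) * (x2 - D.1))) * pS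
        + ((s1 - (D.2 - D.1)) * (s2 - (D.2 - D.1))) * pX
    rw [e1, e2]
    ring
  have hT5 : 5 ≤ T.card := by omega
  obtain ⟨D0, hD0⟩ : T.Nonempty := Finset.card_pos.1 (by omega)
  obtain ⟨m, hm, _, _⟩ := h.slopes hD0
  have h00 := hG D0 hD0
  have h7 : (7 : F) = 0 := by
    have := FiniteField.cast_card_eq_zero F
    rw [hq] at this
    exact_mod_cast this
  have key : ∀ z : F, z ≠ 0 → z ≠ 1 → z ≠ m → 1 - z + z ^ 2 = 0 → False := by
    intro z z0 z1 zm hα
    obtain ⟨p', hp1, hp2⟩ := hm z z0 z1 zm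
    have hp1T := Finset.mem_of_mem_erase hp1
    have ht' : p'.1 - D0.1 ≠ 0 := by
      intro h0
      exact Finset.ne_of_mem_erase hp1 (h.hx p' hp1T D0 hD0 (sub_eq_zero.1 h0))
    have hz2 : z * (p'.1 - D0.1) = p'.2 - D0.2 := by
      rw [← hp2]; unfold slope; exact div_mul_cancel₀ _ ht'
    have e := GG_line x1 x2 y1 y2 s1 s2 D0.1 D0.2 z (p'.1 - D0.1)
    rw [hz2] at e
    have e1 : D0.1 + (p'.1 - D0.1) = p'.1 := by ring
    have e2 : D0.2 + (p'.2 - D0.2) = p'.2 := by ring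
    rw [e1, e2, hG p' hp1T, h00] at e
    apply h.no_line h20 hT5 hG h00 (m := z) ?_ hα
    apply mul_left_cancel₀ ht'
    linear_combination -e - 2 * (p'.1 - D0.1) ^ 2 * hα
  have h30 : (3 : F) ≠ 0 := by
    intro h3
    have : (1 : F) = 0 := by linear_combination h7 - 2 * h3
    exact one_ne_zero this
  have h31 : (3 : F) ≠ 1 := by
    intro h3
    apply h20
    linear_combination h3
  have h50 : (5 : F) ≠ 0 := by
    intro h5
    apply h20
    linear_combination h7 - h5
  have h51 : (5 : F) ≠ 1 := by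
    intro h5
    apply mul_ne_zero h20 h20
    linear_combination h5
  have h53 : (5 : F) ≠ 3 := by
    intro h5
    apply h20
    linear_combination h5
  by_cases c : (3 : F) = m
  · exact key 5 h50 h51 (fun hh => h53 (hh.trans c.symm)) (by linear_combination 3 * h7)
  · exact key 3 h30 h31 c (by linear_combination h7)

end Pool.Agent.NHI
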