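import Mathlib

/-! Counting lines in a finite projective plane. -/

namespace Pool.Agent.NHI

open Finset Configuration
open Classical in
/-- the number of points of `S` on `l` -/
noncomputable def nn {P L : Type} [Membership P L] (S : Finset P) (l : L) : ℕ :=
  (S.filter fun p => p ∈ l).card

section
variable {P L : Type} [Membership P L] [ProjectivePlane P L] [Fintype P] [Fintype L]

open Classical in
theorem cnt_line (p : P) : (univ.filter fun l : L => p ∈ l).card = ProjectivePlane.order P L + 1 := by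
  rw [← ProjectivePlane.lineCount_eq L p]
  unfold lineCount
  rw [Nat.card_eq_fintype_card, Fintype.card_subtype]

open Classical in
theorem cnt_two {p p' : P} (h : p ≠ p') :
    (univ.filter fun l : L => p ∈ l ∧ p' ∈ l).card = 1 := by
  rw [Finset.card_eq_one]
  obtain ⟨h1, h2⟩ := HasLines.mkLine_ax (L := L) h
  refine ⟨HasLines.mkLine h, ?_⟩
  ext l
  simp only [Finset.mem_filter, Finset.mem_univ, true_and, Finset.mem_singleton]
  constructor
  · rintro ⟨h3, h4⟩
    exact (Nondegenerate.eq_or_eq h3 h4 h1 h2).resolve_left h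
  · rintro rfl
    exact ⟨h1, h2⟩

open Classical in
theorem sum_nn (S : Finset P) :
    ∑ l : L, nn S l = S.card * (ProjectivePlane.order P L + 1) := by
  unfold nn
  simp only [Finset.card_filter]
  rw [Finset.sum_comm]
  have : ∀ p ∈ S, ∑ l : L, (if p ∈ l then 1 else 0) = ProjectivePlane.order P L + 1 := by
    intro p _
    rw [← Finset.card_filter, cnt_line]
  rw [Finset.sum_congr rfl this, Finset.sum_const, smul_eq_mul]

open Classical in
theorem sum_nn_sq (S : Finset P) :
    ∑ l : L, nn S l * nn S l = S.card * ((ProjectivePlane.order P L + 1) + (S.card - 1)) := by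
  unfold nn
  simp only [Finset.card_filter]
  have e : ∀ l : L, (∑ p ∈ S, if p ∈ l then 1 else 0) * (∑ p ∈ S, if p ∈ l then 1 else 0)
      = ∑ p ∈ S, ∑ p' ∈ S, if p ∈ l ∧ p' ∈ l then 1 else 0 := by
    intro l
    rw [Finset.sum_mul_sum]
    apply Finset.sum_congr rfl
    intro p _
    apply Finset.sum_congr rfl
    intro p' _
    by_cases h1 : p ∈ l <;> by_cases h2 : p' ∈ l <;> simp [h1, h2]
  rw [Finset.sum_congr rfl (fun l _ => e l), Finset.sum_comm]
  have e2 : ∀ p ∈ S, ∑ l : L, ∑ p' ∈ S, (if p ∈ l ∧ p' ∈ l then 1 else 0) =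
      (ProjectivePlane.order P L + 1) + (S.card - 1) := by
    intro p hp
    rw [Finset.sum_comm, ← Finset.add_sum_erase S _ hp]
    congr 1
    · simp only [and_self]
      rw [← Finset.card_filter, cnt_line]
    · have e3 : ∀ p' ∈ S.erase p, ∑ l : L, (if p ∈ l ∧ p' ∈ l then 1 else 0) = 1 := by
        intro p' hp'
        rw [← Finset.card_filter]
        exact cnt_two (Finset.ne_of_mem_erase hp').symm
      rw [Finset.sum_congr rfl e3, Finset.sum_const, smul_eq_mul, mul_one,
        Finset.card_erase_of_mem hp]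
  rw [Finset.sum_congr rfl e2, Finset.sum_const, smul_eq_mul]

open Classical in
theorem unique_tri (S : Finset P) {q : ℕ} (hq : ProjectivePlane.order P L = q)
    (hS : S.card = q + 1)
    (hu : 2 * (univ.filter fun l : L => nn S l = 0).card + 2 + q = q * q) :
    ∃ l0 : L, nn S l0 = 3 ∧ ∀ l : L, l ≠ l0 → nn S l ≤ 2 := by
  have h1 := sum_nn (L := L) S
  have h2 := sum_nn_sq (L := L) S
  have h3 := ProjectivePlane.card_lines P L
  rw [hq, hS] at h1 h2
  rw [hq] at h3
  have hsum : ∑ l : L, (((nn S l : ℤ) - 1) * ((nn S l : ℤ) - 2)) = q * q - q := by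
    have e : ∀ l : L, ((nn S l : ℤ) - 1) * ((nn S l : ℤ) - 2) =
        ((nn S l * nn S l : ℕ) : ℤ) - 3 * (nn S l : ℤ) + 2 := by
      intro l; push_cast; ring
    rw [Finset.sum_congr rfl (fun l _ => e l), Finset.sum_add_distrib, Finset.sum_sub_distrib,
      ← Finset.mul_sum, ← Nat.cast_sum, ← Nat.cast_sum, h1, h2, Finset.sum_const, Finset.card_univ,
      h3]
    simp only [Nat.add_sub_cancel]
    push_cast
    simp only [smul_eq_mul, nsmul_eq_mul]
    push_cast
    ring
  have hnn : ∀ l : L, 0 ≤ ((nn S l : ℤ) - 1) * ((nn S l : ℤ) - 2) := by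
    intro l
    rcases Nat.lt_or_ge (nn S l) 2 with h | h
    · have h1 : (nn S l : ℤ) ≤ 1 := by omega
      nlinarith
    · have h1 : (2 : ℤ) ≤ nn S l := by exact_mod_cast h
      nlinarith
  have hsplit := Finset.sum_filter_add_sum_filter_not (univ : Finset L) (fun l => nn S l = 0)
    (fun l => ((nn S l : ℤ) - 1) * ((nn S l : ℤ) - 2))
  rw [hsum] at hsplit
  have hz : ∑ l ∈ univ.filter (fun l : L => nn S l = 0),
      (((nn S l : ℤ) - 1) * ((nn S l : ℤ) - 2)) =
      2 * ((univ.filter fun l : L => nn S l = 0).card : ℤ) := by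
    rw [Finset.sum_congr rfl (g := fun _ => (2 : ℤ))]
    · rw [Finset.sum_const, nsmul_eq_mul, mul_comm]
    · intro l hl
      rw [(Finset.mem_filter.1 hl).2]
      norm_num
  rw [hz] at hsplit
  have htwo : ∑ l ∈ univ.filter (fun l : L => ¬ nn S l = 0),
      (((nn S l : ℤ) - 1) * ((nn S l : ℤ) - 2)) = 2 := by
    have : ((2 * (univ.filter fun l : L => nn S l = 0).card + 2 + q : ℕ) : ℤ) = (q * q : ℕ) := by
      rw [hu]
    push_cast at this
    linarith
  have hbig : ∀ l : L, 3 ≤ nn S l → (2 : ℤ) ≤ ((nn S l : ℤ) - 1) * ((nn S l : ℤ) - 2) := by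
    intro l h
    have h1 : (3 : ℤ) ≤ nn S l := by exact_mod_cast h
    nlinarith
  have hex : ∃ l0 : L, 3 ≤ nn S l0 := by
    by_contra hcon
    push Not at hcon
    have : ∑ l ∈ univ.filter (fun l : L => ¬ nn S l = 0),
      (((nn S l : ℤ) - 1) * ((nn S l : ℤ) - 2)) = 0 := by
      apply Finset.sum_eq_zero
      intro l hl
      have ha := (Finset.mem_filter.1 hl).2
      have hb := hcon l
      have hc : nn S l = 1 ∨ nn S l = 2 := by omega
      rcases hc with hc | hc <;> rw [hc] <;> norm_num
    rw [this] at htwo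
    norm_num at htwo
  obtain ⟨l0, hl0⟩ := hex
  have hm0 : l0 ∈ univ.filter (fun l : L => ¬ nn S l = 0) := by
    simp only [Finset.mem_filter, Finset.mem_univ, true_and]
    omega
  refine ⟨l0, ?_, ?_⟩
  · have h4 := Finset.single_le_sum (f := fun l : L => ((nn S l : ℤ) - 1) * ((nn S l : ℤ) - 2))
      (fun l _ => hnn l) hm0
    rw [htwo] at h4
    by_contra hne
    have h5 : 4 ≤ nn S l0 := by omega
    have h6 : (4 : ℤ) ≤ nn S l0 := by exact_mod_cast h5
    nlinarith
  · intro l hl
    by_contra hcon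
    have h3' : 3 ≤ nn S l := by omega
    have hm : l ∈ univ.filter (fun l : L => ¬ nn S l = 0) := by
      simp only [Finset.mem_filter, Finset.mem_univ, true_and]
      omega
    have h4 : ∑ x ∈ ({l0, l} : Finset L), (((nn S x : ℤ) - 1) * ((nn S x : ℤ) - 2)) ≤
        ∑ x ∈ univ.filter (fun l : L => ¬ nn S l = 0),
          (((nn S x : ℤ) - 1) * ((nn S x : ℤ) - 2)) := by
      apply Finset.sum_le_sum_of_subset_of_nonneg
      · intro x hx
        simp only [Finset.mem_insert, Finset.mem_singleton] at hx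
        rcases hx with rfl | rfl
        · exact hm0
        · exact hm
      · intro x _ _; exact hnn x
    rw [Finset.sum_pair hl.symm, htwo] at h4
    have h5 := hbig l0 hl0
    have h6 := hbig l h3'
    linarith

end

end Pool.Agent.NHI
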