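import Mathlib

/-! Counting nonsquares. -/

namespace Pool.Agent.NHI

open Finset

variable {F : Type} [Field F] [Fintype F] [DecidableEq F]

/-- twice the number of nonsquares -/
theorem two_ns (hF : ringChar F ≠ 2) :
    2 * (univ.filter fun x : F => ¬ IsSquare x).card = Fintype.card F - 1 := by
  have h1 := quadraticChar_sum_zero (F := F) hF
  have hval : ∀ a : F, quadraticChar F a =
      (if a = 0 then (0 : ℤ) else 1) - 2 * (if ¬ IsSquare a then 1 else 0) := by
    intro a
    by_cases h0 : a = 0
    · subst h0; simp
    · by_cases hs : IsSquare a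
      · rw [(quadraticChar_one_iff_isSquare h0).2 hs]; simp [h0, hs]
      · rw [quadraticChar_neg_one_iff_not_isSquare.2 hs]; simp [h0, hs]
  rw [Finset.sum_congr rfl (fun a _ => hval a), Finset.sum_sub_distrib, ← Finset.mul_sum] at h1
  have h2 : ∑ a : F, (if a = 0 then (0 : ℤ) else 1) = Fintype.card F - 1 := by
    rw [← Finset.sum_filter_add_sum_filter_not univ (fun a : F => a = 0)]
    have e1 : ∑ a ∈ univ.filter (fun a : F => a = 0), (if a = 0 then (0 : ℤ) else 1) = 0 := by
      apply Finset.sum_eq_zero
      intro a ha
      simp [(Finset.mem_filter.1 ha).2]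
    have e2 : ∑ a ∈ univ.filter (fun a : F => ¬ a = 0), (if a = 0 then (0 : ℤ) else 1)
        = (univ.filter (fun a : F => ¬ a = 0)).card := by
      rw [Finset.card_eq_sum_ones]
      push_cast
      apply Finset.sum_congr rfl
      intro a ha
      simp [(Finset.mem_filter.1 ha).2]
    rw [e1, e2, zero_add]
    have e3 : (univ.filter (fun a : F => ¬ a = 0)) = univ.erase 0 := by
      ext a; simp
    rw [e3, Finset.card_erase_of_mem (Finset.mem_univ _), Finset.card_univ,
      Nat.cast_sub Fintype.card_pos]
    simp
  have h3 : ∑ a : F, (if ¬ IsSquare a then (1 : ℤ) else 0) =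
      (univ.filter fun x : F => ¬ IsSquare x).card := by
    rw [Finset.card_filter]
    push_cast
    rfl
  rw [h2, h3] at h1
  have hpos : 0 < Fintype.card F := Fintype.card_pos
  omega

/-- twice the number of `a` with `a ^ 2 - 4` a nonsquare -/
theorem two_m (hF : ringChar F ≠ 2) :
    2 * (univ.filter fun x : F => ¬ IsSquare (x ^ 2 - 4)).card = Fintype.card F - 1 := by
  have h20 : (2 : F) ≠ 0 := Ring.two_ne_zero hF
  have h40 : (4 : F) ≠ 0 := by
    have : (4 : F) = 2 * 2 := by norm_num
    rw [this]; exact mul_ne_zero h20 h20
  -- pairs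
  have hcard : (∑ a : F, (univ.filter fun y : F => y ^ 2 = a ^ 2 - 4).card)
      = Fintype.card F - 1 := by
    rw [← Finset.card_sigma]
    have e : (univ.erase (0 : F)).card = Fintype.card F - 1 := by
      rw [Finset.card_erase_of_mem (Finset.mem_univ _), Finset.card_univ]
    rw [← e]
    symm
    apply Finset.card_bij' (fun (s : F) _ => (⟨(s + 4 / s) / 2, (4 / s - s) / 2⟩ : Sigma fun _ : F => F))
      (fun p _ => p.1 - p.2)
    · intro s hs
      have hs0 : s ≠ 0 := Finset.ne_of_mem_erase hs
      simp only [Finset.mem_sigma, Finset.mem_univ, Finset.mem_filter, true_and]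
      field_simp
      ring
    · intro p hp
      simp only [Finset.mem_sigma, Finset.mem_univ, Finset.mem_filter, true_and] at hp
      simp only [Finset.mem_erase, Finset.mem_univ, and_true, ne_eq]
      intro h
      apply h40
      have : p.1 = p.2 := sub_eq_zero.1 h
      rw [this] at hp
      linear_combination hp
    · intro s hs
      have hs0 : s ≠ 0 := Finset.ne_of_mem_erase hs
      simp only
      field_simp
      ring
    · rintro ⟨a, y⟩ hp
      simp only [Finset.mem_sigma, Finset.mem_univ, Finset.mem_filter, true_and] at hp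
      have h1 : (a - y) * (a + y) = 4 := by linear_combination -hp
      have h2 : a - y ≠ 0 := by
        intro h; rw [h, zero_mul] at h1; exact h40 h1.symm
      have h3 : 4 / (a - y) = a + y := by
        rw [div_eq_iff h2]; linear_combination -h1
      simp only [h3]
      congr 1
      · field_simp; ring
      · field_simp; ring
  have hsq : ∀ a : F, ((univ.filter fun y : F => y ^ 2 = a).card : ℤ) = quadraticChar F a + 1 := by
    intro a
    rw [← quadraticChar_card_sqrts hF a]
    congr 2
    ext y
    simp
  have hval : ∀ a : F, quadraticChar F (a ^ 2 - 4) =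
      (1 - (if a ^ 2 - 4 = 0 then (1 : ℤ) else 0)) - 2 * (if ¬ IsSquare (a ^ 2 - 4) then 1 else 0) := by
    intro a
    by_cases h0 : a ^ 2 - 4 = 0
    · rw [h0]; simp
    · by_cases hs : IsSquare (a ^ 2 - 4)
      · rw [(quadraticChar_one_iff_isSquare h0).2 hs]; simp [h0, hs]
      · rw [quadraticChar_neg_one_iff_not_isSquare.2 hs]; simp [h0, hs]
  have hz : (univ.filter fun a : F => a ^ 2 - 4 = 0).card = 2 := by
    have : (univ.filter fun a : F => a ^ 2 - 4 = 0) = {2, -2} := by
      ext a
      simp only [Finset.mem_filter, Finset.mem_univ, true_and, Finset.mem_insert,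
        Finset.mem_singleton]
      constructor
      · intro h
        have : (a - 2) * (a + 2) = 0 := by linear_combination h
        rcases mul_eq_zero.1 this with h | h
        · left; linear_combination h
        · right; linear_combination h
      · rintro (rfl | rfl) <;> ring
    rw [this, Finset.card_pair]
    intro h
    apply h40
    linear_combination h
  have h5 : ∑ a : F, (quadraticChar F (a ^ 2 - 4) + 1) = (Fintype.card F : ℤ) - 1 := by
    rw [← Finset.sum_congr rfl (fun a _ => hsq (a ^ 2 - 4)), ← Nat.cast_sum, hcard,
      Nat.cast_sub Fintype.card_pos]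
    simp
  have h6 : ∑ a : F, (quadraticChar F (a ^ 2 - 4) + 1) =
      2 * (Fintype.card F : ℤ) - (univ.filter fun a : F => a ^ 2 - 4 = 0).card
        - 2 * (univ.filter fun x : F => ¬ IsSquare (x ^ 2 - 4)).card := by
    rw [Finset.sum_congr rfl (fun a _ => by rw [hval a])]
    simp only [Finset.sum_add_distrib, Finset.sum_sub_distrib, ← Finset.mul_sum]
    rw [Finset.card_filter, Finset.card_filter]
    push_cast
    simp only [Finset.sum_const, Finset.card_univ, nsmul_eq_mul, mul_one]
    ring
  rw [hz] at h6
  rw [h6] at h5
  have hpos : 0 < Fintype.card F := Fintype.card_pos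
  push_cast at h5
  omega

end Pool.Agent.NHI
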