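import Mathlib
import Pool.Agent.NHI.Cnt
import Pool.Agent.NHI.Aff2

/-! From a point set with one trisecant to affine coordinates. -/

namespace Pool.Agent.NHI

open Finset Projectivization Matrix
open scoped LinearAlgebra.Projectivization

variable {F : Type} [Field F]

theorem mem_mk_mk {v n : Fin 3 → F} (hv : v ≠ 0) (hn : n ≠ 0) :
    (mk F v hv) ∈ (mk F n hn : ℙ F (Fin 3 → F)) ↔ n ⬝ᵥ v = 0 := by
  rw [Configuration.ofField.mem_iff, orthogonal_mk, dotProduct_comm]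

theorem mem_rep {v : Fin 3 → F} (hv : v ≠ 0) (l : ℙ F (Fin 3 → F)) :
    (mk F v hv) ∈ l ↔ l.rep ⬝ᵥ v = 0 := by
  conv_lhs => rw [← l.mk_rep]
  exact mem_mk_mk hv l.rep_nonzero

theorem basis_lemma {w b c d : Fin 3 → F} (hwb : w ⬝ᵥ b = 0) (hwc : w ⬝ᵥ c = 0)
    (hwd : w ⬝ᵥ d = 1) (hind : ∀ s t : F, s • b + t • c = 0 → s = 0 ∧ t = 0) :
    ∃ n0 n1 : Fin 3 → F, n0 ⬝ᵥ b = 1 ∧ n0 ⬝ᵥ c = 0 ∧ n0 ⬝ᵥ d = 0 ∧ n1 ⬝ᵥ b = 0 ∧
      n1 ⬝ᵥ c = 1 ∧ n1 ⬝ᵥ d = 0 ∧
      ∀ v, v = (n0 ⬝ᵥ v) • b + (n1 ⬝ᵥ v) • c + (w ⬝ᵥ v) • d := by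
  let M : Matrix (Fin 3) (Fin 3) F := ![b, c, d]
  have hdet : M.det ≠ 0 := by
    intro h0
    obtain ⟨u, hu0, hu⟩ := Matrix.exists_vecMul_eq_zero_iff.2 h0
    have hu' : u 0 • b + u 1 • c + u 2 • d = 0 := by
      rw [← hu]
      ext j
      simp [M, Matrix.vecMul, dotProduct, Fin.sum_univ_three]
    have h2 : u 2 = 0 := by
      have := congrArg (fun v => w ⬝ᵥ v) hu'
      simp only [dotProduct_add, dotProduct_smul, hwb, hwc, hwd, dotProduct_zero, smul_eq_mul] at this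
      linear_combination this
    rw [h2, zero_smul, add_zero] at hu'
    obtain ⟨h00, h11⟩ := hind _ _ hu'
    apply hu0
    ext i
    fin_cases i
    · exact h00
    · exact h11
    · exact h2
  have hunit : IsUnit M.det := isUnit_iff_ne_zero.2 hdet
  have hMN := Matrix.mul_nonsing_inv M hunit
  have hNM := Matrix.nonsing_inv_mul M hunit
  generalize M⁻¹ = N at hMN hNM
  have e : ∀ i j : Fin 3, (fun k => N k j) ⬝ᵥ (M i) = (1 : Matrix (Fin 3) (Fin 3) F) i j := by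
    intro i j
    rw [← hMN, Matrix.mul_apply, dotProduct]
    apply Finset.sum_congr rfl
    intro k _
    exact mul_comm _ _
  have hv : ∀ v, v = ((fun k => N k 0) ⬝ᵥ v) • b + ((fun k => N k 1) ⬝ᵥ v) • c +
      ((fun k => N k 2) ⬝ᵥ v) • d := by
    intro v
    have h1 : v ᵥ* (N * M) = v := by rw [hNM, Matrix.vecMul_one]
    rw [← Matrix.vecMul_vecMul] at h1
    conv_lhs => rw [← h1]
    ext j
    simp only [Matrix.vecMul, dotProduct, Fin.sum_univ_three, Pi.add_apply, Pi.smul_apply,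
      smul_eq_mul, M, Matrix.cons_val_zero, Matrix.cons_val_one, Matrix.cons_val]
    ring
  refine ⟨fun k => N k 0, fun k => N k 1, ?_, ?_, ?_, ?_, ?_, ?_, ?_⟩
  · have := e 0 0; simpa [M] using this
  · have := e 1 0; simpa [M] using this
  · have := e 2 0; simpa [M] using this
  · have := e 0 1; simpa [M] using this
  · have := e 1 1; simpa [M] using this
  · have := e 2 1; simpa [M] using this
  · intro v
    have h1 := hv v
    have h2 : w ⬝ᵥ v = (fun k => N k 2) ⬝ᵥ v := by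
      have := congrArg (fun v => w ⬝ᵥ v) h1
      simp only [dotProduct_add, dotProduct_smul, hwb, hwc, hwd, smul_eq_mul] at this
      rw [this]
      ring
    rw [h2]
    exact h1

open Classical in
theorem three_le {S : Finset (ℙ F (Fin 3 → F))} {l P1 P2 P3 : ℙ F (Fin 3 → F)}
    (h1 : P1 ∈ S) (h2 : P2 ∈ S) (h3 : P3 ∈ S) (m1 : P1 ∈ l) (m2 : P2 ∈ l) (m3 : P3 ∈ l)
    (h12 : P1 ≠ P2) (h13 : P1 ≠ P3) (h23 : P2 ≠ P3) : 3 ≤ nn S l := by
  unfold nn
  have : ({P1, P2, P3} : Finset (ℙ F (Fin 3 → F))) ⊆ S.filter fun p => p ∈ l := by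
    intro x hx
    simp only [Finset.mem_insert, Finset.mem_singleton] at hx
    rw [Finset.mem_filter]
    rcases hx with rfl | rfl | rfl
    · exact ⟨h1, m1⟩
    · exact ⟨h2, m2⟩
    · exact ⟨h3, m3⟩
  refine le_trans ?_ (Finset.card_le_card this)
  rw [Finset.card_eq_three.2 ⟨P1, P2, P3, h12, h13, h23, rfl⟩]

open Classical in
theorem to_cfg [Fintype F] (S : Finset (ℙ F (Fin 3 → F)))
    (hS : S.card = Fintype.card F + 1) (l0 : ℙ F (Fin 3 → F)) (h3 : nn S l0 = 3)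
    (h2 : ∀ l, l ≠ l0 → nn S l ≤ 2) : ∃ T : Finset (F × F), Cfg T := by
  unfold nn at h3
  obtain ⟨A, B, C, hAB, hAC, hBC, hABC⟩ := Finset.card_eq_three.1 h3
  have hA : A ∈ S ∧ A ∈ l0 := by
    have : A ∈ S.filter fun p => p ∈ l0 := by rw [hABC]; simp
    exact Finset.mem_filter.1 this
  have hB : B ∈ S ∧ B ∈ l0 := by
    have : B ∈ S.filter fun p => p ∈ l0 := by rw [hABC]; simp
    exact Finset.mem_filter.1 this
  have hC : C ∈ S ∧ C ∈ l0 := by
    have : C ∈ S.filter fun p => p ∈ l0 := by rw [hABC]; simp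
    exact Finset.mem_filter.1 this
  have hw0 : l0.rep ≠ 0 := l0.rep_nonzero
  have wa : l0.rep ⬝ᵥ A.rep = 0 := by rw [← mem_rep A.rep_nonzero, A.mk_rep]; exact hA.2
  have wb : l0.rep ⬝ᵥ B.rep = 0 := by rw [← mem_rep B.rep_nonzero, B.mk_rep]; exact hB.2
  have wc : l0.rep ⬝ᵥ C.rep = 0 := by rw [← mem_rep C.rep_nonzero, C.mk_rep]; exact hC.2
  have key : ∀ (P Q : ℙ F (Fin 3 → F)) (s : F), s • Q.rep = P.rep → P = Q := by
    intro P Q s h
    rw [← P.mk_rep, ← Q.mk_rep, mk_eq_mk_iff']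
    exact ⟨s, h⟩
  obtain ⟨i, hi⟩ : ∃ i, l0.rep i ≠ 0 := by
    by_contra hcon
    push Not at hcon
    exact hw0 (funext hcon)
  obtain ⟨d, wd⟩ : ∃ d, l0.rep ⬝ᵥ d = 1 := by
    refine ⟨Pi.single i (l0.rep i)⁻¹, ?_⟩
    rw [dotProduct_single]
    exact mul_inv_cancel₀ hi
  generalize l0.rep = w at *
  have hind0 : ∀ s t : F, s • B.rep + t • C.rep = 0 → s = 0 ∧ t = 0 := by
    intro s t h
    by_cases hs : s = 0
    · refine ⟨hs, ?_⟩
      rw [hs, zero_smul, zero_add] at h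
      exact (smul_eq_zero.1 h).resolve_right C.rep_nonzero
    · exfalso
      apply hBC
      apply key B C (-(s⁻¹ * t))
      have : B.rep = s⁻¹ • (s • B.rep) := by rw [smul_smul, inv_mul_cancel₀ hs, one_smul]
      rw [this, eq_neg_of_add_eq_zero_left h, smul_neg, smul_smul, neg_smul]
  obtain ⟨m0, m1, -, -, -, -, -, -, hspan⟩ := basis_lemma wb wc wd hind0
  have ha := hspan A.rep
  rw [wa, zero_smul, add_zero] at ha
  generalize m0 ⬝ᵥ A.rep = β at ha
  generalize m1 ⬝ᵥ A.rep = γ at ha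
  have hβ : β ≠ 0 := by
    intro h0
    rw [h0, zero_smul, zero_add] at ha
    exact hAC (key A C γ ha.symm)
  have hγ : γ ≠ 0 := by
    intro h0
    rw [h0, zero_smul, add_zero] at ha
    exact hAB (key A B β ha.symm)
  obtain ⟨b, hb⟩ : ∃ b, b = β • B.rep := ⟨_, rfl⟩
  obtain ⟨c, hc⟩ : ∃ c, c = γ • C.rep := ⟨_, rfl⟩
  have wb' : w ⬝ᵥ b = 0 := by rw [hb, dotProduct_smul, wb, smul_zero]
  have wc' : w ⬝ᵥ c = 0 := by rw [hc, dotProduct_smul, wc, smul_zero]
  have hb0 : b ≠ 0 := by rw [hb]; exact smul_ne_zero hβ B.rep_nonzero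
  have hc0 : c ≠ 0 := by rw [hc]; exact smul_ne_zero hγ C.rep_nonzero
  have ha' : A.rep = b + c := by rw [hb, hc]; exact ha
  have hbc0 : b + c ≠ 0 := by rw [← ha']; exact A.rep_nonzero
  have eA : mk F (b + c) hbc0 = A := by
    rw [← A.mk_rep, mk_eq_mk_iff']
    exact ⟨1, by rw [one_smul, ha']⟩
  have eB : mk F b hb0 = B := by
    rw [← B.mk_rep, mk_eq_mk_iff']
    exact ⟨β, hb.symm⟩
  have eC : mk F c hc0 = C := by
    rw [← C.mk_rep, mk_eq_mk_iff']
    exact ⟨γ, hc.symm⟩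
  have hind : ∀ s t : F, s • b + t • c = 0 → s = 0 ∧ t = 0 := by
    intro s t h
    rw [hb, hc, smul_smul, smul_smul] at h
    obtain ⟨h1, h2⟩ := hind0 _ _ h
    exact ⟨(mul_eq_zero.1 h1).resolve_right hβ, (mul_eq_zero.1 h2).resolve_right hγ⟩
  obtain ⟨n0, n1, n0b, n0c, n0d, n1b, n1c, n1d, hsp⟩ := basis_lemma wb' wc' wd hind
  let vec : F × F → (Fin 3 → F) := fun p => p.1 • b + p.2 • c + d
  have wvec : ∀ p, w ⬝ᵥ vec p = 1 := by
    intro p
    simp only [vec, dotProduct_add, dotProduct_smul, wb', wc', wd, smul_eq_mul]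
    ring
  have n0vec : ∀ p, n0 ⬝ᵥ vec p = p.1 := by
    intro p
    simp only [vec, dotProduct_add, dotProduct_smul, n0b, n0c, n0d, smul_eq_mul]
    ring
  have n1vec : ∀ p, n1 ⬝ᵥ vec p = p.2 := by
    intro p
    simp only [vec, dotProduct_add, dotProduct_smul, n1b, n1c, n1d, smul_eq_mul]
    ring
  have hvec0 : ∀ p, vec p ≠ 0 := by
    intro p h
    have := wvec p
    rw [h, dotProduct_zero] at this
    exact zero_ne_one this
  have hptinj : ∀ p p', mk F (vec p) (hvec0 p) = mk F (vec p') (hvec0 p') → p = p' := by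
    intro p p' h
    rw [mk_eq_mk_iff'] at h
    obtain ⟨s, hs⟩ := h
    have h1 := congrArg (fun v => w ⬝ᵥ v) hs
    have h2 := congrArg (fun v => n0 ⬝ᵥ v) hs
    have h3 := congrArg (fun v => n1 ⬝ᵥ v) hs
    simp only [dotProduct_smul, wvec, n0vec, n1vec, smul_eq_mul, mul_one] at h1 h2 h3
    rw [h1, one_mul] at h2 h3
    exact Prod.ext h2.symm h3.symm
  -- points off `l0`
  have hoff : ∀ p, mk F (vec p) (hvec0 p) ≠ A ∧ mk F (vec p) (hvec0 p) ≠ B ∧
      mk F (vec p) (hvec0 p) ≠ C := by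
    intro p
    refine ⟨?_, ?_, ?_⟩
    · intro h
      rw [← eA, mk_eq_mk_iff'] at h
      obtain ⟨s, hs⟩ := h
      have h1 := congrArg (fun v => w ⬝ᵥ v) hs
      simp only [dotProduct_smul, dotProduct_add, wvec, wb', wc', smul_eq_mul, add_zero,
        mul_zero] at h1
      exact zero_ne_one h1
    · intro h
      rw [← eB, mk_eq_mk_iff'] at h
      obtain ⟨s, hs⟩ := h
      have h1 := congrArg (fun v => w ⬝ᵥ v) hs
      simp only [dotProduct_smul, wvec, wb', smul_eq_mul, mul_zero] at h1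
      exact zero_ne_one h1
    · intro h
      rw [← eC, mk_eq_mk_iff'] at h
      obtain ⟨s, hs⟩ := h
      have h1 := congrArg (fun v => w ⬝ᵥ v) hs
      simp only [dotProduct_smul, wvec, wc', smul_eq_mul, mul_zero] at h1
      exact zero_ne_one h1
  -- lines
  have line : ∀ α δ ε : F, ¬ (α = 0 ∧ δ = 0) → ∃ l : ℙ F (Fin 3 → F), nn S l ≤ 2 ∧
      (∀ p : F × F, α * p.1 + δ * p.2 + ε = 0 → mk F (vec p) (hvec0 p) ∈ l) ∧
      (α = 0 → B ∈ l) ∧ (δ = 0 → C ∈ l) ∧ (α + δ = 0 → A ∈ l) := by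
    intro α δ ε hαδ
    let n : Fin 3 → F := α • n0 + δ • n1 + ε • w
    have nb : n ⬝ᵥ b = α := by
      simp only [n, add_dotProduct, smul_dotProduct, n0b, n1b, wb', smul_eq_mul]; ring
    have nc : n ⬝ᵥ c = δ := by
      simp only [n, add_dotProduct, smul_dotProduct, n0c, n1c, wc', smul_eq_mul]; ring
    have nv : ∀ p, n ⬝ᵥ vec p = α * p.1 + δ * p.2 + ε := by
      intro p
      simp only [n, add_dotProduct, smul_dotProduct, n0vec, n1vec, wvec, smul_eq_mul]; ring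
    have hn0 : n ≠ 0 := by
      intro h
      apply hαδ
      rw [h, zero_dotProduct] at nb nc
      exact ⟨nb.symm, nc.symm⟩
    refine ⟨mk F n hn0, ?_, ?_, ?_, ?_, ?_⟩
    · apply h2
      rintro rfl
      apply hαδ
      have b1 := hB.2
      have c1 := hC.2
      rw [← eB, mem_mk_mk, nb] at b1
      rw [← eC, mem_mk_mk, nc] at c1
      exact ⟨b1, c1⟩
    · intro p hp
      rw [mem_mk_mk, nv, hp]
    · intro h
      rw [← eB, mem_mk_mk, nb, h]
    · intro h
      rw [← eC, mem_mk_mk, nc, h]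
    · intro h
      rw [← eA, mem_mk_mk, dotProduct_add, nb, nc, h]
  refine ⟨univ.filter fun p => mk F (vec p) (hvec0 p) ∈ S, ?_, ?_, ?_, ?_, ?_⟩
  · -- cardinality
    have hsplit := Finset.card_filter_add_card_filter_not (s := S) (fun p => p ∈ l0)
    rw [h3] at hsplit
    have hc : (univ.filter fun p : F × F => mk F (vec p) (hvec0 p) ∈ S).card =
        (S.filter fun p => ¬ p ∈ l0).card := by
      apply Finset.card_bij (fun p _ => mk F (vec p) (hvec0 p))
      · intro p hp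
        have hpS := (Finset.mem_filter.1 hp).2
        rw [Finset.mem_filter]
        refine ⟨hpS, ?_⟩
        intro hl
        have : mk F (vec p) (hvec0 p) ∈ S.filter fun p => p ∈ l0 :=
          Finset.mem_filter.2 ⟨hpS, hl⟩
        rw [hABC] at this
        simp only [Finset.mem_insert, Finset.mem_singleton] at this
        obtain ⟨o1, o2, o3⟩ := hoff p
        rcases this with h | h | h
        · exact o1 h
        · exact o2 h
        · exact o3 h
      · intro p _ p' _ h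
        exact hptinj p p' h
      · intro Q hQ
        rw [Finset.mem_filter] at hQ
        have hwQ : w ⬝ᵥ Q.rep ≠ 0 := by
          intro h0
          have e1 := hsp Q.rep
          rw [h0, zero_smul, add_zero] at e1
          apply hQ.2
          -- `Q` lies on the line `l0`
          have hl0 : ∀ n : Fin 3 → F, n ⬝ᵥ b = 0 → n ⬝ᵥ c = 0 → n ⬝ᵥ Q.rep = 0 := by
            intro n h1 h2
            rw [e1, dotProduct_add, dotProduct_smul, dotProduct_smul, h1, h2]
            simp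
          rw [← Q.mk_rep, mem_rep]
          apply hl0
          · rw [← mem_rep hb0, eB]; exact hB.2
          · rw [← mem_rep hc0, eC]; exact hC.2
        have e : mk F (vec ((w ⬝ᵥ Q.rep)⁻¹ * (n0 ⬝ᵥ Q.rep), (w ⬝ᵥ Q.rep)⁻¹ * (n1 ⬝ᵥ Q.rep)))
            (hvec0 _) = Q := by
          rw [← Q.mk_rep, mk_eq_mk_iff']
          refine ⟨(w ⬝ᵥ Q.rep)⁻¹, ?_⟩
          refine (congrArg (fun v => (w ⬝ᵥ Q.rep)⁻¹ • v) (hsp Q.rep)).trans ?_
          simp only [vec, smul_add, smul_smul, inv_mul_cancel₀ hwQ, one_smul, Q.mk_rep]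
        refine ⟨((w ⬝ᵥ Q.rep)⁻¹ * (n0 ⬝ᵥ Q.rep), (w ⬝ᵥ Q.rep)⁻¹ * (n1 ⬝ᵥ Q.rep)), ?_, e⟩
        rw [Finset.mem_filter]
        refine ⟨Finset.mem_univ _, ?_⟩
        rw [e]
        exact hQ.1
    omega
  · intro p hp p' hp' h
    by_contra hne
    obtain ⟨l, hl, l1, l2, l3, l4⟩ := line 1 0 (-p.1) (by simp)
    have := three_le (Finset.mem_filter.1 hp).2 (Finset.mem_filter.1 hp').2 hC.1
      (l1 p (by ring)) (l1 p' (by rw [← h]; ring)) (l3 rfl)
      (fun e => hne (hptinj _ _ e)) (hoff p).2.2 (hoff p').2.2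
    omega
  · intro p hp p' hp' h
    by_contra hne
    obtain ⟨l, hl, l1, l2, l3, l4⟩ := line 0 1 (-p.2) (by simp)
    have := three_le (Finset.mem_filter.1 hp).2 (Finset.mem_filter.1 hp').2 hB.1
      (l1 p (by ring)) (l1 p' (by rw [← h]; ring)) (l2 rfl)
      (fun e => hne (hptinj _ _ e)) (hoff p).2.1 (hoff p').2.1
    omega
  · intro p hp p' hp' h
    by_contra hne
    obtain ⟨l, hl, l1, l2, l3, l4⟩ := line (-1) 1 (-(p.2 - p.1)) (by simp)
    have := three_le (Finset.mem_filter.1 hp).2 (Finset.mem_filter.1 hp').2 hA.1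
      (l1 p (by ring)) (l1 p' (by rw [h]; ring)) (l4 (by ring))
      (fun e => hne (hptinj _ _ e)) (hoff p).1 (hoff p').1
    omega
  · intro p hp p' hp' p'' hp'' h12 h13 h23 heq
    have hαδ : ¬ (-(p'.2 - p.2) = 0 ∧ p'.1 - p.1 = 0) := by
      rintro ⟨h1, h2⟩
      apply h12
      apply Prod.ext
      · linear_combination -h2
      · linear_combination h1
    obtain ⟨l, hl, l1, l2, l3, l4⟩ := line (-(p'.2 - p.2)) (p'.1 - p.1)
      ((p'.2 - p.2) * p.1 - (p'.1 - p.1) * p.2) hαδ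
    have := three_le (Finset.mem_filter.1 hp).2 (Finset.mem_filter.1 hp').2
      (Finset.mem_filter.1 hp'').2
      (l1 p (by ring)) (l1 p' (by ring)) (l1 p'' (by linear_combination heq))
      (fun e => h12 (hptinj _ _ e)) (fun e => h13 (hptinj _ _ e)) (fun e => h23 (hptinj _ _ e))
    omega

end Pool.Agent.NHI
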