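import Mathlib
import Pool.Agent.NHI.Count

/-! A set of `q + 1` points: a parabola without its point at infinity, plus an external point. -/

namespace Pool.Agent.NHI

open Finset Projectivization
open scoped LinearAlgebra.Projectivization

variable {F : Type} [Field F]

/-- The non-hitting index of a point set of `PG(2, q)`: the number of lines (given by dual
coordinates) that contain no point of the set. -/
noncomputable def u0 (S : Set (ℙ F (Fin 3 → F))) : ℕ :=
  Set.ncard {l : ℙ F (Fin 3 → F) | ∀ P ∈ S, ¬ orthogonal l P}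

theorem ne1 (x y : F) : (![x, y, 1] : Fin 3 → F) ≠ 0 := by
  intro h
  have := congrFun h 2
  simp at this

theorem ne2 (a b : F) : (![a, -1, b] : Fin 3 → F) ≠ 0 := by
  intro h
  have := congrFun h 1
  simp at this

/-- affine points -/
def pt (x y : F) : ℙ F (Fin 3 → F) := mk F ![x, y, 1] (ne1 x y)

/-- affine non-vertical lines `y = a x + b` -/
def ln (a b : F) : ℙ F (Fin 3 → F) := mk F ![a, -1, b] (ne2 a b)

/-- the line at infinity -/
def lninf : ℙ F (Fin 3 → F) := pt 0 0

theorem pt_inj {x y x' y' : F} (h : pt x y = pt x' y') : x = x' ∧ y = y' := by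
  unfold pt at h
  rw [mk_eq_mk_iff'] at h
  obtain ⟨a, ha⟩ := h
  have h0 := congrFun ha 0
  have h1 := congrFun ha 1
  have h2 := congrFun ha 2
  simp at h0 h1 h2
  subst h2
  simp at h0 h1
  exact ⟨h0.symm, h1.symm⟩

theorem ln_inj {x y x' y' : F} (h : ln x y = ln x' y') : x = x' ∧ y = y' := by
  unfold ln at h
  rw [mk_eq_mk_iff'] at h
  obtain ⟨a, ha⟩ := h
  have h0 := congrFun ha 0
  have h1 := congrFun ha 1
  have h2 := congrFun ha 2
  simp at h0 h1 h2
  subst h1
  simp at h0 h2
  exact ⟨h0.symm, h2.symm⟩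

theorem ln_ne_inf (a b : F) : ln a b ≠ lninf := by
  intro h
  unfold ln lninf pt at h
  rw [mk_eq_mk_iff'] at h
  obtain ⟨c, hc⟩ := h
  have h1 := congrFun hc 1
  simp at h1

theorem orth_ln (a b x y : F) : orthogonal (ln a b) (pt x y) ↔ a * x - y + b = 0 := by
  unfold ln pt
  rw [orthogonal_mk]
  simp [dotProduct, Fin.sum_univ_three]
  ring_nf

theorem orth_inf (x y : F) : ¬ orthogonal (lninf : ℙ F (Fin 3 → F)) (pt x y) := by
  unfold lninf pt
  rw [orthogonal_mk]
  simp [dotProduct, Fin.sum_univ_three]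

/-- the point set -/
def SS (F : Type) [Field F] : Set (ℙ F (Fin 3 → F)) :=
  Set.range (fun x : F => pt x (x ^ 2)) ∪ {pt 0 (-1)}

theorem SS_card [Fintype F] : (SS F).ncard = Fintype.card F + 1 := by
  have h1 : (Set.range (fun x : F => pt x (x ^ 2))).ncard = Fintype.card F := by
    rw [Set.ncard_range_of_injective, Nat.card_eq_fintype_card]
    intro x y h
    exact (pt_inj h).1
  unfold SS
  rw [Set.union_singleton, Set.ncard_insert_of_notMem, h1]
  rintro ⟨x, hx⟩
  obtain ⟨e1, e2⟩ := pt_inj hx
  rw [e1] at e2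
  norm_num at e2

/-- the parameters of the missing affine lines -/
def good (F : Type) [Field F] : Set (F × F) := {p | ¬ IsSquare (p.1 ^ 2 + 4 * p.2) ∧ p.2 ≠ -1}

theorem miss_iff (hF : ringChar F ≠ 2) (a b : F) :
    (∀ P ∈ SS F, ¬ orthogonal (ln a b) P) ↔ (a, b) ∈ good F := by
  have h20 : (2 : F) ≠ 0 := Ring.two_ne_zero hF
  unfold SS good
  simp only [Set.mem_union, Set.mem_range, Set.mem_singleton_iff, Set.mem_setOf_eq]
  constructor
  · intro h
    constructor
    · rintro ⟨s, hs⟩
      apply h (pt ((a + s) / 2) (((a + s) / 2) ^ 2)) (Or.inl ⟨_, rfl⟩)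
      rw [orth_ln]
      field_simp
      linear_combination hs
    · intro hb
      apply h (pt 0 (-1)) (Or.inr rfl)
      rw [orth_ln, hb]
      ring
  · rintro ⟨hs, hb⟩ P (⟨x, rfl⟩ | rfl)
    · rw [orth_ln]
      intro h
      apply hs
      refine ⟨2 * x - a, ?_⟩
      linear_combination 4 * h
    · rw [orth_ln]
      intro h
      apply hb
      linear_combination h

theorem missing_eq (hF : ringChar F ≠ 2) :
    {l : ℙ F (Fin 3 → F) | ∀ P ∈ SS F, ¬ orthogonal l P} =
      insert lninf ((fun p : F × F => ln p.1 p.2) '' good F) := by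
  ext l
  constructor
  · intro hl
    induction l with | h v hv =>
    by_cases h1 : v 1 = 0
    · by_cases h0 : v 0 = 0
      · left
        unfold lninf pt
        rw [mk_eq_mk_iff']
        refine ⟨v 2, ?_⟩
        ext i
        fin_cases i
        · simp [h0]
        · simp [h1]
        · simp
      · exfalso
        apply hl (pt (-(v 2) / v 0) ((-(v 2) / v 0) ^ 2)) (Or.inl ⟨_, rfl⟩)
        unfold pt
        rw [orthogonal_mk]
        simp only [dotProduct, Fin.sum_univ_three]
        simp [h1]
        field_simp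
        ring
    · right
      have e : mk F v hv = ln (-(v 0) / v 1) (-(v 2) / v 1) := by
        unfold ln
        rw [mk_eq_mk_iff']
        refine ⟨-(v 1), ?_⟩
        ext i
        fin_cases i
        · simp; field_simp
        · simp
        · simp; field_simp
      refine ⟨(-(v 0) / v 1, -(v 2) / v 1), ?_, e.symm⟩
      rw [← miss_iff hF]
      rw [← e]
      exact hl
  · rintro (rfl | ⟨p, hp, rfl⟩)
    · rintro P (⟨x, rfl⟩ | rfl)
      · exact orth_inf _ _
      · exact orth_inf _ _
    · exact (miss_iff hF p.1 p.2).2 hp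

theorem good_card [Fintype F] (hF : ringChar F ≠ 2) :
    2 * (good F).ncard = (Fintype.card F - 1) ^ 2 := by
  classical
  have h20 : (2 : F) ≠ 0 := Ring.two_ne_zero hF
  have h40 : (4 : F) ≠ 0 := by
    have : (4 : F) = 2 * 2 := by norm_num
    rw [this]; exact mul_ne_zero h20 h20
  have e : good F = ↑(univ.filter fun p : F × F => ¬ IsSquare (p.1 ^ 2 + 4 * p.2) ∧ p.2 ≠ -1) := by
    ext p; simp [good]
  rw [e, Set.ncard_coe_finset]
  -- all pairs
  have hall : (univ.filter fun p : F × F => ¬ IsSquare (p.1 ^ 2 + 4 * p.2)).card =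
      Fintype.card F * (univ.filter fun x : F => ¬ IsSquare x).card := by
    rw [← Finset.card_univ, ← Finset.card_product]
    refine Finset.card_bij' (fun p _ => (p.1, p.1 ^ 2 + 4 * p.2))
      (fun p _ => (p.1, (p.2 - p.1 ^ 2) / 4)) ?_ ?_ ?_ ?_
    · intro p hp
      simp only [Finset.mem_filter, Finset.mem_univ, true_and] at hp
      simp only [Finset.mem_product, Finset.mem_univ, Finset.mem_filter, true_and]
      exact hp
    · intro p hp
      simp only [Finset.mem_product, Finset.mem_univ, Finset.mem_filter, true_and] at hp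
      simp only [Finset.mem_filter, Finset.mem_univ, true_and]
      have : p.1 ^ 2 + 4 * ((p.2 - p.1 ^ 2) / 4) = p.2 := by field_simp; ring
      rw [this]
      exact hp
    · intro p _
      ext
      · rfl
      · simp only; field_simp; ring
    · intro p _
      ext
      · rfl
      · simp only; field_simp; ring
  have hbad : (univ.filter fun p : F × F => ¬ IsSquare (p.1 ^ 2 + 4 * p.2) ∧ p.2 = -1).card =
      (univ.filter fun x : F => ¬ IsSquare (x ^ 2 - 4)).card := by
    refine Finset.card_bij' (fun p _ => p.1) (fun x _ => (x, -1)) ?_ ?_ ?_ ?_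
    · intro p hp
      simp only [Finset.mem_filter, Finset.mem_univ, true_and] at hp ⊢
      rw [hp.2] at hp
      have : p.1 ^ 2 - 4 = p.1 ^ 2 + 4 * (-1) := by ring
      rw [this]; exact hp.1
    · intro x hx
      simp only [Finset.mem_filter, Finset.mem_univ, true_and, and_true] at hx ⊢
      have : x ^ 2 + 4 * (-1) = x ^ 2 - 4 := by ring
      rw [this]; exact hx
    · intro p hp
      simp only [Finset.mem_filter, Finset.mem_univ, true_and] at hp
      ext
      · rfl
      · exact hp.2.symm
    · intro x _; rfl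
  have hsplit := Finset.card_filter_add_card_filter_not
    (s := univ.filter fun p : F × F => ¬ IsSquare (p.1 ^ 2 + 4 * p.2)) (fun p => p.2 = -1)
  rw [Finset.filter_filter, Finset.filter_filter] at hsplit
  rw [hall, hbad] at hsplit
  have h1 := two_ns (F := F) hF
  have h2 := two_m (F := F) hF
  have hpos : 1 < Fintype.card F := Fintype.one_lt_card
  obtain ⟨r, hr⟩ : ∃ r, Fintype.card F = r + 1 := ⟨Fintype.card F - 1, by omega⟩
  rw [hr] at hsplit h1 h2 ⊢
  simp only [Nat.add_sub_cancel] at h1 h2 ⊢
  have h3 : 2 * ((r + 1) * (univ.filter fun x : F => ¬ IsSquare x).card) = (r + 1) * r := by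
    rw [← h1]; ring
  have h4 : (r + 1) * r = r ^ 2 + r := by ring
  simp only [ne_eq]
  omega

theorem u0_SS [Fintype F] (hF : ringChar F ≠ 2) :
    2 * u0 (SS F) = (Fintype.card F - 1) ^ 2 + 2 := by
  classical
  unfold u0
  rw [missing_eq hF, Set.ncard_insert_of_notMem, Set.ncard_image_of_injective]
  · rw [mul_add, good_card hF]
  · rintro ⟨a, b⟩ ⟨a', b'⟩ h
    obtain ⟨e1, e2⟩ := ln_inj h
    simp only at e1 e2
    rw [e1, e2]
  · rintro ⟨p, _, hp⟩
    exact ln_ne_inf _ _ hp

end Pool.Agent.NHI
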